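import Pool.Agent.Run7.h343.PV.Iface

/-!
Piece ROOT of helper343's project PV (Gauss sums in a coset of characters).  Author: helper559.
-/

set_option autoImplicit false

open Finset
open Pool.Agent.Run7.h343.PV

namespace Run7.h559.PV

theorem surj_char {q : ℕ} [NeZero q] (c : AddChar (ZMod q) ℂ) :
    ∃ a : ZMod q, ∀ t, c t = ZMod.stdAddChar (a * t) := by
  classical
  have hinj : Function.Injective
      (fun a : ZMod q => AddChar.mulShift (ZMod.stdAddChar : AddChar (ZMod q) ℂ) a) :=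
    AddChar.to_mulShift_inj_of_isPrimitive (ZMod.isPrimitive_stdAddChar q)
  have hcard : Fintype.card (ZMod q) = Fintype.card (AddChar (ZMod q) ℂ) := AddChar.card_eq.symm
  have hbij := (Fintype.bijective_iff_injective_and_card _).2 ⟨hinj, hcard⟩
  obtain ⟨a, ha⟩ := hbij.2 c
  refine ⟨a, fun t => ?_⟩
  rw [← ha]
  rfl

theorem cast_zero {p ν m : ℕ} [NeZero (p ^ ν)] (hp : p.Prime) (hmν : m ≤ ν) (y : ZMod (p ^ ν))
    (hy : (p : ZMod (p ^ ν)) ^ (ν - m) * y = 0) :
    ZMod.castHom (pow_dvd_pow p hmν) (ZMod (p ^ m)) y = 0 := by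
  have h1 : ((y.val : ℕ) : ZMod (p ^ ν)) = y := ZMod.natCast_zmod_val y
  rw [← h1] at hy ⊢
  have h2 : ((p ^ (ν - m) * y.val : ℕ) : ZMod (p ^ ν)) = 0 := by
    push_cast
    exact hy
  rw [ZMod.natCast_eq_zero_iff] at h2
  rw [map_natCast, ZMod.natCast_eq_zero_iff]
  have h3 : p ^ (ν - m) * p ^ m ∣ p ^ (ν - m) * y.val := by
    rw [← pow_add, Nat.sub_add_cancel hmν]
    exact h2
  exact Nat.dvd_of_mul_dvd_mul_left (pow_pos hp.pos _) h3

theorem t_ROOT : S_ROOT := by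
  classical
  intro p ν m _ hmν hp _ hm1 h2m χ hχ
  have hpν : (p : ZMod (p ^ ν)) ^ ν = 0 := by
    have := ZMod.natCast_self (p ^ ν)
    rw [Nat.cast_pow] at this
    exact this
  set k := ν - m with hk
  have hkm : k + m = ν := Nat.sub_add_cancel hmν
  have hkk : (p : ZMod (p ^ ν)) ^ k * (p : ZMod (p ^ ν)) ^ k = 0 := by
    rw [← pow_add]
    have : k + k = ν + (k + k - ν) := by omega
    rw [this, pow_add, hpν, zero_mul]
  have hmul : ∀ s t : ZMod (p ^ ν), (1 + (p : ZMod (p ^ ν)) ^ k * s) * (1 + (p : ZMod (p ^ ν)) ^ k * t) =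
      1 + (p : ZMod (p ^ ν)) ^ k * (s + t) := by
    intro s t
    have : (1 + (p : ZMod (p ^ ν)) ^ k * s) * (1 + (p : ZMod (p ^ ν)) ^ k * t) =
        1 + (p : ZMod (p ^ ν)) ^ k * (s + t) + ((p : ZMod (p ^ ν)) ^ k * (p : ZMod (p ^ ν)) ^ k) * (s * t) := by ring
    rw [this, hkk, zero_mul, add_zero]
  have hunit : ∀ t : ZMod (p ^ ν), IsUnit (1 + (p : ZMod (p ^ ν)) ^ k * t) := by
    intro t
    refine IsUnit.of_mul_eq_one (1 + (p : ZMod (p ^ ν)) ^ k * (-t)) ?_
    rw [hmul, add_neg_cancel, mul_zero, add_zero]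
  -- the additive character
  let c : AddChar (ZMod (p ^ ν)) ℂ :=
    { toFun := fun t => χ (1 + (p : ZMod (p ^ ν)) ^ k * t)
      map_zero_eq_one' := by rw [mul_zero, add_zero, map_one]
      map_add_eq_mul' := fun s t => by rw [← map_mul, hmul] }
  have hc : ∀ t, c t = χ (1 + (p : ZMod (p ^ ν)) ^ k * t) := fun t => rfl
  obtain ⟨a', ha'⟩ := surj_char c
  have hinj : Function.Injective (ZMod.stdAddChar : AddChar (ZMod (p ^ ν)) ℂ) := ZMod.injective_stdAddChar
  have h1 : a' * (p : ZMod (p ^ ν)) ^ m = 0 := by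
    apply hinj
    rw [← ha', hc, AddChar.map_zero_eq_one, ← pow_add, hkm, hpν, add_zero, map_one]
  obtain ⟨a, ha⟩ : ∃ a : ℕ, a' = (p : ZMod (p ^ ν)) ^ k * (a : ZMod (p ^ ν)) := by
    have h2 : ((a'.val : ℕ) : ZMod (p ^ ν)) = a' := ZMod.natCast_zmod_val a'
    rw [← h2] at h1
    have h3 : ((a'.val * p ^ m : ℕ) : ZMod (p ^ ν)) = 0 := by
      push_cast
      exact h1
    rw [ZMod.natCast_eq_zero_iff] at h3
    have h4 : p ^ k * p ^ m ∣ a'.val * p ^ m := by
      rw [← pow_add, hkm]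
      exact h3
    obtain ⟨a, ha⟩ := Nat.dvd_of_mul_dvd_mul_right (pow_pos hp.pos _) h4
    refine ⟨a, ?_⟩
    rw [← h2, ha]
    push_cast
    rfl
  have hca : ∀ t : ZMod (p ^ ν), c t = ZMod.stdAddChar ((p : ZMod (p ^ ν)) ^ k * (a : ZMod (p ^ ν)) * t) := by
    intro t
    rw [ha', ha]
  -- p does not divide a
  have hpa : ¬ p ∣ a := by
    rintro ⟨a₁, rfl⟩
    have hν1 : 1 ≤ ν := by omega
    have hfac : χ.FactorsThrough (p ^ (ν - 1)) := by
      rw [DirichletCharacter.factorsThrough_iff_ker_unitsMap (pow_dvd_pow p (Nat.sub_le ν 1))]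
      intro x hx
      rw [MonoidHom.mem_ker] at hx ⊢
      rw [Units.ext_iff, MulChar.coe_toUnitHom, Units.val_one]
      have hx1 : ZMod.castHom (pow_dvd_pow p (Nat.sub_le ν 1)) (ZMod (p ^ (ν - 1))) (x : ZMod (p ^ ν)) = 1 :=
        congrArg Units.val hx
      have hx2 : ZMod.castHom (pow_dvd_pow p (Nat.sub_le ν 1)) (ZMod (p ^ (ν - 1)))
          ((x : ZMod (p ^ ν)) - 1) = 0 := by
        rw [map_sub, hx1, map_one, sub_self]
      obtain ⟨y, hy⟩ : ∃ y : ℕ, (x : ZMod (p ^ ν)) - 1 = (p : ZMod (p ^ ν)) ^ (ν - 1) * (y : ZMod (p ^ ν)) := by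
        have h2 : ((((x : ZMod (p ^ ν)) - 1).val : ℕ) : ZMod (p ^ ν)) = (x : ZMod (p ^ ν)) - 1 := ZMod.natCast_zmod_val _
        rw [← h2, map_natCast, ZMod.natCast_eq_zero_iff] at hx2
        obtain ⟨y, hy⟩ := hx2
        refine ⟨y, ?_⟩
        rw [← h2, hy]
        push_cast
        rfl
      have hx3 : (x : ZMod (p ^ ν)) = 1 + (p : ZMod (p ^ ν)) ^ k * ((p : ZMod (p ^ ν)) ^ (m - 1) * (y : ZMod (p ^ ν))) := by
        rw [← mul_assoc, ← pow_add]
        have : k + (m - 1) = ν - 1 := by omega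
        rw [this, ← hy]
        ring
      rw [hx3, ← hc, hca]
      have hx4 : (p : ZMod (p ^ ν)) ^ k * ((p * a₁ : ℕ) : ZMod (p ^ ν)) * ((p : ZMod (p ^ ν)) ^ (m - 1) * (y : ZMod (p ^ ν))) =
          (p : ZMod (p ^ ν)) ^ ν * ((a₁ : ZMod (p ^ ν)) * (y : ZMod (p ^ ν))) := by
        have e : ν = k + 1 + (m - 1) := by omega
        have e3 : ∀ z : ZMod (p ^ ν), z ^ (k + 1 + (m - 1)) = z ^ k * z * z ^ (m - 1) := by
          intro z
          rw [pow_add, pow_add, pow_one]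
        have e2 : (p : ZMod (p ^ ν)) ^ ν = (p : ZMod (p ^ ν)) ^ k * p * (p : ZMod (p ^ ν)) ^ (m - 1) := by
          rw [← e3, ← e]
        rw [e2]
        push_cast
        ring
      rw [hx4, hpν, zero_mul, AddChar.map_zero_eq_one]
    have h5 : χ.conductor ≤ p ^ (ν - 1) := Nat.sInf_le hfac
    have h6 : χ.conductor = p ^ ν := hχ
    rw [h6] at h5
    have h7 : p ^ (ν - 1) < p ^ ν := Nat.pow_lt_pow_right hp.one_lt (by omega)
    omega
  refine ⟨-(a : ℤ), ?_, ?_⟩
  · rw [dvd_neg, Int.natCast_dvd_natCast]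
    exact hpa
  -- the main computation
  have key : ∀ θ : DirichletCharacter ℂ (p ^ m),
      gaussSum (χ * DirichletCharacter.changeLevel (pow_dvd_pow p hmν) θ) ZMod.stdAddChar =
      θ ((-(a : ℤ) : ℤ) : ZMod (p ^ m)) *
        ∑ x : ZMod (p ^ ν), if (p : ZMod (p ^ ν)) ^ k * ((a : ZMod (p ^ ν)) + x) = 0 then χ x * ZMod.stdAddChar x else 0 := by
    intro θ
    set ϑ := DirichletCharacter.changeLevel (pow_dvd_pow p hmν) θ with hϑ
    set G := gaussSum (χ * ϑ) (ZMod.stdAddChar : AddChar (ZMod (p ^ ν)) ℂ) with hG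
    have hϑu : ∀ t : ZMod (p ^ ν), ϑ (1 + (p : ZMod (p ^ ν)) ^ k * t) = 1 := by
      intro t
      obtain ⟨u, hu⟩ := hunit t
      rw [← hu, hϑ, DirichletCharacter.changeLevel_eq_cast_of_dvd, hu]
      have e : (ZMod.cast (1 + (p : ZMod (p ^ ν)) ^ k * t) : ZMod (p ^ m)) =
          ZMod.castHom (pow_dvd_pow p hmν) (ZMod (p ^ m)) (1 + (p : ZMod (p ^ ν)) ^ k * t) :=
        (ZMod.castHom_apply _).symm
      rw [e, map_add, map_one, map_mul, map_pow, map_natCast]
      have e2 : (p : ZMod (p ^ m)) ^ k = 0 := by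
        have h3 : (p : ZMod (p ^ m)) ^ m = 0 := by
          have := ZMod.natCast_self (p ^ m)
          rw [Nat.cast_pow] at this
          exact this
        have h4 : k = m + (k - m) := by omega
        rw [h4, pow_add, h3, zero_mul]
      rw [e2, zero_mul, add_zero, map_one]
    have hshift : ∀ t : ZMod (p ^ ν), G = ∑ x : ZMod (p ^ ν), (χ * ϑ) x * ZMod.stdAddChar x *
        ZMod.stdAddChar (t * ((p : ZMod (p ^ ν)) ^ k * ((a : ZMod (p ^ ν)) + x))) := by
      intro t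
      obtain ⟨u, hu⟩ := hunit t
      rw [hG, gaussSum, ← Equiv.sum_comp (Units.mulRight u)]
      refine Finset.sum_congr rfl fun x _ => ?_
      rw [Units.mulRight_apply, hu, map_mul, MulChar.mul_apply χ ϑ (1 + (p : ZMod (p ^ ν)) ^ k * t), hϑu,
        mul_one, ← hc, hca]
      beta_reduce
      have e1 : x * (1 + (p : ZMod (p ^ ν)) ^ k * t) = x + (p : ZMod (p ^ ν)) ^ k * x * t := by ring
      rw [e1, AddChar.map_add_eq_mul]
      have e2 : t * ((p : ZMod (p ^ ν)) ^ k * ((a : ZMod (p ^ ν)) + x)) =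
          (p : ZMod (p ^ ν)) ^ k * (a : ZMod (p ^ ν)) * t + (p : ZMod (p ^ ν)) ^ k * x * t := by ring
      rw [e2, AddChar.map_add_eq_mul]
      ring
    have hq : (Fintype.card (ZMod (p ^ ν)) : ℂ) ≠ 0 := by
      rw [ZMod.card]
      exact_mod_cast NeZero.ne (p ^ ν)
    have h5 : (Fintype.card (ZMod (p ^ ν)) : ℂ) * G = (Fintype.card (ZMod (p ^ ν)) : ℂ) *
        ∑ x : ZMod (p ^ ν), if (p : ZMod (p ^ ν)) ^ k * ((a : ZMod (p ^ ν)) + x) = 0 then (χ * ϑ) x * ZMod.stdAddChar x else 0 := by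
      calc (Fintype.card (ZMod (p ^ ν)) : ℂ) * G = ∑ _t : ZMod (p ^ ν), G := by
            rw [Finset.sum_const, Finset.card_univ, nsmul_eq_mul]
        _ = ∑ t : ZMod (p ^ ν), ∑ x : ZMod (p ^ ν), (χ * ϑ) x * ZMod.stdAddChar x *
              ZMod.stdAddChar (t * ((p : ZMod (p ^ ν)) ^ k * ((a : ZMod (p ^ ν)) + x))) :=
            Finset.sum_congr rfl fun t _ => hshift t
        _ = ∑ x : ZMod (p ^ ν), (χ * ϑ) x * ZMod.stdAddChar x *
              ∑ t : ZMod (p ^ ν), ZMod.stdAddChar (t * ((p : ZMod (p ^ ν)) ^ k * ((a : ZMod (p ^ ν)) + x))) := by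
            rw [Finset.sum_comm]
            exact Finset.sum_congr rfl fun x _ => (Finset.mul_sum _ _ _).symm
        _ = _ := by
            rw [Finset.mul_sum]
            refine Finset.sum_congr rfl fun x _ => ?_
            rw [AddChar.sum_mulShift _ (ZMod.isPrimitive_stdAddChar _)]
            split_ifs
            · ring
            · simp
    have h6 := mul_left_cancel₀ hq h5
    rw [h6, Finset.mul_sum]
    refine Finset.sum_congr rfl fun x _ => ?_
    split_ifs with hx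
    · rw [MulChar.mul_apply]
      by_cases hu : IsUnit x
      · obtain ⟨u, rfl⟩ := hu
        have e1 : ϑ (u : ZMod (p ^ ν)) = θ ((-(a : ℤ) : ℤ) : ZMod (p ^ m)) := by
          rw [hϑ, DirichletCharacter.changeLevel_eq_cast_of_dvd]
          congr 1
          have e2 := cast_zero hp hmν ((a : ZMod (p ^ ν)) + (u : ZMod (p ^ ν))) hx
          rw [map_add, map_natCast, ZMod.castHom_apply] at e2
          rw [eq_neg_of_add_eq_zero_right e2]
          push_cast
          rfl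
        rw [e1]
        ring
      · rw [MulChar.map_nonunit χ hu]
        ring
    · rw [mul_zero]
  intro θ
  rw [key θ]
  congr 1
  have h7 := key 1
  rw [DirichletCharacter.changeLevel_one, mul_one] at h7
  rw [h7]
  have hb : IsUnit ((-(a : ℤ) : ℤ) : ZMod (p ^ m)) := by
    push_cast
    rw [IsUnit.neg_iff, ZMod.isUnit_iff_coprime]
    exact (Nat.Coprime.pow_left m ((Nat.Prime.coprime_iff_not_dvd hp).2 hpa)).symm
  rw [MulChar.one_apply hb, one_mul]

end Run7.h559.PV
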